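import Pool.Agent.W787.KG.Defs

/-!
# Project KG: the energy of long tubes
-/

set_option autoImplicit false

open MeasureTheory Set Metric Filter Topology Real

noncomputable section

namespace Pool.Agent.W63.KG.EN

open Pool.Agent.W787.KG

/-- the indicator of an interval -/
def ch (l : ℝ) : ℝ → ℝ := (Icc (-l) l).indicator (fun _ => 1)

theorem ch_int (l : ℝ) (hl : 0 ≤ l) : Integrable (ch l) ∧ ∫ z, ch l z = 2 * l := by
  constructor
  · exact (integrable_indicator_iff measurableSet_Icc).2 (by simp)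
  · unfold ch
    rw [integral_indicator measurableSet_Icc, integral_const]
    simp only [MeasurableSet.univ, measureReal_restrict_apply, univ_inter, smul_eq_mul, mul_one]
    rw [Measure.real, Real.volume_Icc, ENNReal.toReal_ofReal (by linarith)]
    ring

theorem ch_nonneg (l z : ℝ) : 0 ≤ ch l z := indicator_nonneg (fun _ _ => zero_le_one) z

theorem ch_le (l z : ℝ) : ch l z ≤ 1 := by
  unfold ch
  exact indicator_le_self' (fun _ _ => zero_le_one) z

theorem ch_ne {l z : ℝ} (h : ch l z ≠ 0) : |z| ≤ l := by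
  have := mem_of_indicator_ne_zero h
  rw [mem_Icc] at this
  exact abs_le.2 this

theorem base (L : ℝ) (hL : 0 ≤ L) : ∫ u in (0 : ℝ)..L, 1 / (4 + u) = Real.log ((4 + L) / 4) := by
  have h := intervalIntegral.integral_comp_add_left (fun u : ℝ => 1 / u) (a := 0) (b := L) 4
  rw [h, add_zero, integral_one_div_of_pos (by norm_num) (by linarith)]

theorem line (a L : ℝ) (hL : 0 ≤ L) (ha : |a| ≤ L) : ∃ F : ℝ → ℝ, Integrable F ∧
    ∫ z, F z = Real.log ((4 + L) / 4) ∧
    ∀ z, 0 ≤ F z ∧ (F z ≠ 0 → |z| ≤ L) ∧ F z ≤ 1 / (4 + |a - z|) := by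
  obtain ⟨ha1, ha2⟩ := abs_le.1 ha
  have hc : Continuous (fun z : ℝ => 1 / (4 + |a - z|)) := by
    apply Continuous.div continuous_const (by fun_prop)
    intro z
    have := abs_nonneg (a - z)
    linarith
  have hpos : ∀ z, 0 ≤ 1 / (4 + |a - z|) := fun z => by positivity
  rcases le_total 0 a with h0 | h0
  · refine ⟨(Icc (a - L) a).indicator (fun z => 1 / (4 + |a - z|)), ?_, ?_, ?_⟩
    · exact (integrable_indicator_iff measurableSet_Icc).2
        (hc.continuousOn.integrableOn_compact isCompact_Icc)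
    · rw [integral_indicator measurableSet_Icc, integral_Icc_eq_integral_Ioc,
        ← intervalIntegral.integral_of_le (by linarith), ← base L hL]
      have h := intervalIntegral.integral_comp_sub_left (fun u : ℝ => 1 / (4 + |u|))
        (a := a - L) (b := a) a
      rw [h, sub_self, sub_sub_cancel]
      apply intervalIntegral.integral_congr
      intro u hu
      rw [uIcc_of_le hL, mem_Icc] at hu
      simp only
      rw [abs_of_nonneg hu.1]
    · intro z
      refine ⟨indicator_nonneg (fun z _ => hpos z) z, fun hz => ?_, ?_⟩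
      · have := mem_of_indicator_ne_zero hz
        rw [mem_Icc] at this
        exact abs_le.2 ⟨by linarith, by linarith⟩
      · exact indicator_le_self' (fun z _ => hpos z) z
  · refine ⟨(Icc a (a + L)).indicator (fun z => 1 / (4 + |a - z|)), ?_, ?_, ?_⟩
    · exact (integrable_indicator_iff measurableSet_Icc).2
        (hc.continuousOn.integrableOn_compact isCompact_Icc)
    · rw [integral_indicator measurableSet_Icc, integral_Icc_eq_integral_Ioc,
        ← intervalIntegral.integral_of_le (by linarith), ← base L hL]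
      have h := intervalIntegral.integral_comp_sub_right (fun u : ℝ => 1 / (4 + |u|))
        (a := a) (b := a + L) a
      rw [sub_self, add_sub_cancel_left] at h
      calc ∫ x in a..a + L, 1 / (4 + |a - x|) = ∫ x in a..a + L, 1 / (4 + |x - a|) := by
            apply intervalIntegral.integral_congr
            intro u _
            simp only
            rw [abs_sub_comm]
        _ = ∫ x in (0 : ℝ)..L, 1 / (4 + |x|) := h
        _ = ∫ x in (0 : ℝ)..L, 1 / (4 + x) := by
            apply intervalIntegral.integral_congr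
            intro u hu
            rw [uIcc_of_le hL, mem_Icc] at hu
            simp only
            rw [abs_of_nonneg hu.1]
    · intro z
      refine ⟨indicator_nonneg (fun z _ => hpos z) z, fun hz => ?_, ?_⟩
      · have := mem_of_indicator_ne_zero hz
        rw [mem_Icc] at this
        exact abs_le.2 ⟨by linarith, by linarith⟩
      · exact indicator_le_self' (fun z _ => hpos z) z

theorem norm_le (z : E) : ‖z‖ ≤ |z 0| + |z 1| + |z 2| := by
  rw [EuclideanSpace.norm_eq, Fin.sum_univ_three]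
  simp only [Real.norm_eq_abs]
  apply Real.sqrt_le_iff.2
  have h0 := abs_nonneg (z 0)
  have h1 := abs_nonneg (z 1)
  have h2 := abs_nonneg (z 2)
  refine ⟨by positivity, ?_⟩
  nlinarith [mul_nonneg h0 h1, mul_nonneg h0 h2, mul_nonneg h1 h2]

/-- the constant -/
def cc : ℝ := (Real.sqrt π) ^ 3 * Real.exp (-(3 / 4))

theorem cc_pos : 0 < cc := by
  unfold cc
  have := Real.pi_pos
  positivity

theorem n0_nonneg {A L : ℝ} (hA : 0 < A) (x : E) : 0 ≤ n0 A L x := by
  unfold n0; positivity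

theorem n0_ge {A L : ℝ} (hA : 0 < A) (hL : 1 ≤ L) {x : E} (h0 : |x 0| ≤ 1) (h1 : |x 1| ≤ 1)
    (h2 : |x 2| ≤ L) : cc * A ≤ n0 A L x := by
  unfold n0 cc
  have e : Real.exp (-(3 / 4)) ≤
      Real.exp (-((x 0) ^ 2 + (x 1) ^ 2) / 4 - (x 2) ^ 2 / (4 * L ^ 2)) := by
    apply Real.exp_le_exp.2
    have g0 : (x 0) ^ 2 ≤ 1 := by
      rw [← sq_abs]; exact pow_le_one₀ (abs_nonneg _) h0
    have g1 : (x 1) ^ 2 ≤ 1 := by
      rw [← sq_abs]; exact pow_le_one₀ (abs_nonneg _) h1
    have g2 : (x 2) ^ 2 / (4 * L ^ 2) ≤ 1 / 4 := by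
      rw [div_le_div_iff₀ (by positivity) (by norm_num)]
      have : (x 2) ^ 2 ≤ L ^ 2 := by
        rw [← sq_abs (x 2)]; exact pow_le_pow_left₀ (abs_nonneg _) h2 2
      linarith
    linarith
  calc (Real.sqrt π) ^ 3 * Real.exp (-(3 / 4)) * A
      = A * (Real.sqrt π) ^ 3 * Real.exp (-(3 / 4)) := by ring
    _ ≤ _ := mul_le_mul_of_nonneg_left e (by positivity)

theorem inner_ge (h1 : S_EI) (h3 : S_PR) {A L : ℝ} (hA : 0 < A) (hL : 1 ≤ L) {x : E}
    (hx0 : |x 0| ≤ 1) (hx1 : |x 1| ≤ 1) (hx2 : |x 2| ≤ L) :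
    (cc * A) ^ 2 * (4 * Real.log ((4 + L) / 4)) ≤ ∫ y, n0 A L x * n0 A L y / ‖x - y‖ := by
  obtain ⟨F, hF1, hF2, hF3⟩ := line (x 2) L (by linarith) hx2
  obtain ⟨c1, c2⟩ := ch_int 1 zero_le_one
  obtain ⟨g1, g2⟩ := h3.1 (ch 1) (ch 1) F c1 c1 hF1
  have e : (cc * A) ^ 2 * (4 * Real.log ((4 + L) / 4)) =
      ∫ y : E, (cc * A) ^ 2 * (ch 1 (y 0) * ch 1 (y 1) * F (y 2)) := by
    rw [integral_const_mul, g2, c2, hF2]; ring
  rw [e]
  apply integral_mono_ae (g1.const_mul _) ((h1 A L hA hL).1 x)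
  have hne : ∀ᵐ y : E, y ≠ x := by
    rw [ae_iff]
    simp
  filter_upwards [hne] with y hy
  have hnn : 0 ≤ n0 A L x * n0 A L y / ‖x - y‖ :=
    div_nonneg (mul_nonneg (n0_nonneg hA x) (n0_nonneg hA y)) (norm_nonneg _)
  by_cases k0 : ch 1 (y 0) = 0
  · rw [k0]; simpa using hnn
  by_cases k1 : ch 1 (y 1) = 0
  · rw [k1]; simpa using hnn
  by_cases k2 : F (y 2) = 0
  · rw [k2]; simpa using hnn
  have y0 := ch_ne k0
  have y1 := ch_ne k1
  have y2 := (hF3 (y 2)).2.1 k2
  have hxy : 0 < ‖x - y‖ := norm_pos_iff.2 (sub_ne_zero.2 (Ne.symm hy))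
  have hd : ‖x - y‖ ≤ 4 + |x 2 - y 2| := by
    refine (norm_le (x - y)).trans ?_
    have t0 : |(x - y) 0| ≤ 2 := by
      have : (x - y) 0 = x 0 - y 0 := rfl
      rw [this]
      have := abs_sub (x 0) (y 0)
      linarith
    have t1 : |(x - y) 1| ≤ 2 := by
      have : (x - y) 1 = x 1 - y 1 := rfl
      rw [this]
      have := abs_sub (x 1) (y 1)
      linarith
    have t2 : |(x - y) 2| = |x 2 - y 2| := rfl
    rw [t2]
    linarith
  have hF4 : F (y 2) ≤ 1 / ‖x - y‖ :=
    (hF3 (y 2)).2.2.trans (one_div_le_one_div_of_le hxy hd)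
  have hprod : ch 1 (y 0) * ch 1 (y 1) * F (y 2) ≤ 1 / ‖x - y‖ := by
    have p1 : ch 1 (y 0) * ch 1 (y 1) ≤ 1 :=
      mul_le_one₀ (ch_le _ _) (ch_nonneg _ _) (ch_le _ _)
    calc ch 1 (y 0) * ch 1 (y 1) * F (y 2) ≤ 1 * F (y 2) :=
          mul_le_mul_of_nonneg_right p1 (hF3 _).1
      _ ≤ _ := by rw [one_mul]; exact hF4
  have hn : (cc * A) ^ 2 ≤ n0 A L x * n0 A L y := by
    rw [sq]
    exact mul_le_mul (n0_ge hA hL hx0 hx1 hx2) (n0_ge hA hL y0 y1 y2)
      (mul_nonneg cc_pos.le hA.le) (n0_nonneg hA x)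
  calc (cc * A) ^ 2 * (ch 1 (y 0) * ch 1 (y 1) * F (y 2))
      ≤ (n0 A L x * n0 A L y) * (1 / ‖x - y‖) :=
        mul_le_mul hn hprod (mul_nonneg (mul_nonneg (ch_nonneg _ _) (ch_nonneg _ _)) (hF3 _).1)
          (mul_nonneg (n0_nonneg hA x) (n0_nonneg hA y))
    _ = _ := by ring

theorem en (h1 : S_EI) (h3 : S_PR) : S_EN := by
  intro A hA
  have hpi := Real.pi_pos
  have hcc := cc_pos
  set T : ℝ := 6 * π ^ 4 / (cc ^ 2 * A) with hT
  have hT0 : 0 < T := by positivity
  set L : ℝ := 4 * Real.exp T with hL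
  have hL1 : 1 ≤ L := by
    have := Real.add_one_le_exp T
    linarith
  refine ⟨L, hL1, ?_⟩
  have hlog : T < Real.log ((4 + L) / 4) := by
    rw [Real.lt_log_iff_exp_lt (by positivity)]
    rw [hL]
    linarith
  obtain ⟨c1, c2⟩ := ch_int 1 zero_le_one
  obtain ⟨c3, c4⟩ := ch_int L (by linarith)
  obtain ⟨g1, g2⟩ := h3.1 (ch 1) (ch 1) (ch L) c1 c1 c3
  set B : ℝ := (cc * A) ^ 2 * (4 * Real.log ((4 + L) / 4)) with hB
  have hB0 : 0 ≤ B := by
    have : 0 ≤ Real.log ((4 + L) / 4) := hT0.le.trans hlog.le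
    positivity
  have hlow : B * (8 * L) ≤ ∫ x, ∫ y, n0 A L x * n0 A L y / ‖x - y‖ := by
    have e : B * (8 * L) = ∫ x : E, B * (ch 1 (x 0) * ch 1 (x 1) * ch L (x 2)) := by
      rw [integral_const_mul, g2, c2, c4]; ring
    rw [e]
    apply integral_mono (g1.const_mul _) (h1 A L hA hL1).2
    intro x
    simp only
    have hnn : 0 ≤ ∫ y, n0 A L x * n0 A L y / ‖x - y‖ :=
      integral_nonneg fun y => div_nonneg (mul_nonneg (n0_nonneg hA x) (n0_nonneg hA y))
        (norm_nonneg _)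
    by_cases k0 : ch 1 (x 0) = 0
    · rw [k0]; simpa using hnn
    by_cases k1 : ch 1 (x 1) = 0
    · rw [k1]; simpa using hnn
    by_cases k2 : ch L (x 2) = 0
    · rw [k2]; simpa using hnn
    refine le_trans ?_ (inner_ge h1 h3 hA hL1 (ch_ne k0) (ch_ne k1) (ch_ne k2))
    have p1 : ch 1 (x 0) * ch 1 (x 1) ≤ 1 :=
      mul_le_one₀ (ch_le _ _) (ch_nonneg _ _) (ch_le _ _)
    have p2 : ch 1 (x 0) * ch 1 (x 1) * ch L (x 2) ≤ 1 :=
      mul_le_one₀ p1 (ch_nonneg _ _) (ch_le _ _)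
    calc B * (ch 1 (x 0) * ch 1 (x 1) * ch L (x 2)) ≤ B * 1 :=
          mul_le_mul_of_nonneg_left p2 hB0
      _ = B := mul_one _
  refine lt_of_lt_of_le ?_ hlow
  have h5 : (cc * A) ^ 2 * (4 * T) < B := by
    rw [hB]
    have : 0 < (cc * A) ^ 2 := by positivity
    exact mul_lt_mul_of_pos_left (by linarith) this
  have h6 : (cc * A) ^ 2 * (4 * T) = 24 * π ^ 4 * A := by
    rw [hT]
    field_simp
    ring
  have hLpos : 0 < L := by linarith
  calc 24 * π * (8 * π ^ 3 * A * L) = (24 * π ^ 4 * A) * (8 * L) := by ring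
    _ = (cc * A) ^ 2 * (4 * T) * (8 * L) := by rw [h6]
    _ < B * (8 * L) := mul_lt_mul_of_pos_right h5 (by linarith)

end Pool.Agent.W63.KG.EN
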